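import Pool.Agent.R479.NF.HP

/-!
# MP_e426f4_ag: the Hasse principle for 100% of the generalised Châtelet varieties
# `N_{Kᵢ/ℚ}(zᵢ) = cᵢ (f(t) + k)` over abelian fields `Kᵢ`

Let `f` be any integral polynomial in one variable of degree at least two, let the `cᵢ` be nonzero
integers, and let the `Kᵢ` be abelian number fields of any degrees (subfields of a cyclotomic field) with
class numbers prime to their degrees, such that `-1` is a norm (for example, if the degree is odd) or all
norms are nonnegative (if the field is imaginary). The varieties `V_k : N_{Kᵢ/ℚ}(zᵢ) = cᵢ (f(t) + k) ≠ 0`,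
`i < r`, are smooth and geometrically rational, and their smooth projective models are fibred over the line
in smooth compactifications of torsors under products of norm one tori. The number of the integers `|k| ≤ X`
such that `V_k` has real points and `p`-adic points for all `p` but no rational point is `o(X)`.

Proof. For almost all `k` there is a rational `t`, close to given `p`-adic numbers at the bad primes, such
that `f(t) + k` is a prime number `q` up to the bad primes (a second moment over `k`,
`Pool/Agent/TH204`). If `z_p` are local solutions at the bad primes then `cᵢ (f(t) + k)` is, up to norms,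
congruent to the quotient of `q` and of the norm of an ideal modulo a multiple of the conductor. The
Frobenius automorphisms of the cyclotomic field show that `q` is the norm of a prime ideal of `Kᵢ`. As the
class number is prime to the degree, the norms of ideals are norms of elements. At a bad prime the local
points have bounded coordinates for all `k` outside a set of small density.
-/

set_option autoImplicit false

namespace Pool.Agent.Results.MP_e426f4_ag.AbelianNormForms

open Finset NumberField Module TensorProduct Polynomial

instance (p : Nat.Primes) : Fact (p : ℕ).Prime := ⟨p.2⟩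

variable {L : Type} [Field L] [NumberField L] {r : ℕ}

/-- The class number of the field `K` is prime to its degree, and `-1` is a norm or no negative number is
a norm. -/
def Admissible (K : IntermediateField ℚ L) : Prop :=
  (classNumber K).Coprime (finrank ℚ K) ∧
    ((∃ x : K, Algebra.norm ℚ x = -1) ∨ ∀ x : K, 0 ≤ Algebra.norm ℚ x)

/-- The variety `V_k : N_{Kᵢ/ℚ}(zᵢ) = cᵢ (f(t) + k) ≠ 0` has a point over the field `F`. The coordinates
`zᵢ` form an element of `F ⊗ Kᵢ`. -/
def HasPoint (K : Fin r → IntermediateField ℚ L) (f : ℤ[X]) (c : Fin r → ℤ) (k : ℤ) (F : Type) [Field F]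
    [Algebra ℚ F] : Prop :=
  ∃ t : F, aeval t f + (k : F) ≠ 0 ∧
    ∀ i, ∃ z : F ⊗[ℚ] (K i), Algebra.norm F z = (c i : F) * (aeval t f + (k : F))

/-- `V_k` has points over the real and over all `p`-adic numbers, but no rational point. -/
def Counterexample (K : Fin r → IntermediateField ℚ L) (f : ℤ[X]) (c : Fin r → ℤ) (k : ℤ) : Prop :=
  HasPoint K f c k ℝ ∧ (∀ p : Nat.Primes, HasPoint K f c k ℚ_[(p : ℕ)]) ∧ ¬ HasPoint K f c k ℚ

open Classical in
/-- The Hasse principle holds for 100% of the `V_k`. Here `L` is the `m`-th cyclotomic field, and the `Kᵢ`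
are any of its subfields. -/
theorem result (m : ℕ) [NeZero m] [IsCyclotomicExtension {m} ℚ L] (K : Fin r → IntermediateField ℚ L)
    (hK : ∀ i, Admissible (K i)) (f : ℤ[X]) (hf : 2 ≤ f.natDegree) (c : Fin r → ℤ) (hc : ∀ i, c i ≠ 0)
    (ε : ℝ) (hε : 0 < ε) :
    ∃ X₀ : ℕ, ∀ X : ℕ, X₀ ≤ X → (#{k ∈ Icc (-(X : ℤ)) X | Counterexample K f c k} : ℝ) ≤ ε * X := by
  obtain ⟨X₀, h⟩ := Pool.Agent.R479.NF.mainB m K (fun i => (hK i).1) (fun i => (hK i).2) f hf c hc ε hε
  refine ⟨X₀, fun X hX => ?_⟩
  convert h X hX
  rfl

end Pool.Agent.Results.MP_e426f4_ag.AbelianNormForms
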