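import Pool.Agent.R479.NF.Sx7

/-!
# MP_e426f4_ag: rational points on 100% of the varieties `N_{Kᵢ/ℚ}(zᵢ) = cᵢ ∏_{j ∈ A(φ(i))} (f_j(t) + k_j)`, all real points

Let `f_1, …, f_s` be any nonconstant integral polynomials in one variable `t`, let `A(y)`, `y < e`, be any
nonempty subsets of `{1, …, s}`, let `φ` be a map from the indices `i < r` to the indices `y`, let the `cᵢ`
be nonzero integers, and let the `Kᵢ`, `i < r`, be subfields of a cyclotomic field, of any degrees, with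
class numbers prime to their degrees, such that `-1` is a norm (for example, if the degree is odd) or all
norms are nonnegative. For `k` in `ℤ^s` let `V_k` be the variety

`N_{Kᵢ/ℚ}(zᵢ) = cᵢ ∏_{j ∈ A(φ(i))} (f_j(t) + k_j)`, `i < r`, with all the `f_j(t) + k_j` different from `0`.

Suppose that the compositum of the `Kᵢ` with `φ(i) = y` and that of the `Kᵢ` with `φ(i) ≠ y` for which
`A(φ(i))` and `A(y)` have a common element are linearly disjoint, for all `y`. Suppose further that there is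
a rational number `u ≠ 0` such that the numbers `cᵢ ∏_{j ∈ A(φ(i))} (lead(f_j) u ^ deg f_j)` are norms from
the `Kᵢ`; for example, this holds, for any `cᵢ` and any leading coefficients, if the degrees of the `Kᵢ` are
coprime in pairs and prime to the degrees of the products `∏_{j ∈ A(φ(i))} f_j`.

We show: (1) 100% of the `V_k` with `|k_j| ≤ B X ^ deg f_j`, `X → ∞`, have rational points. (2) Let `T` be any
finite set of primes. For 100% of the `k` all families of points of `V_k` over the `ℚ_p`, `p` in `T` (with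
coordinates of absolute value at most `p ^ N`, and `|f_j(t_p) + k_j| ≥ p ^ (-N)`), and over `ℝ` (no condition)
can be approximated by rational points: `t` at `T`, the signs of all `f_j(t) + k_j` at the real place, and
`zᵢ` at `T` for all `i` for which `Kᵢ` is cyclic.

Compared with `MP_e426f4_ag.OverlappingProducts`, there is a more general condition at infinity, `T` is
arbitrary in (2), and the real point need not be at the natural scale nor away from the degenerate fibres.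
The latter is shown as follows (`NF/Sx7`): the set of the `k` for which a given sign vector is taken by the
`f_j(t) + k_j` at some real `t` is an upper set for the corresponding order of `ℤ^s`; so for all but few `k`
in it, it also contains the `k` moved back a bit, that is, the sign vector is taken at a real number at which
the values are not small (`upset_card`, `robust`).
-/

set_option autoImplicit false

namespace Pool.Agent.Results.MP_e426f4_ag.AllRealPoints

open Finset Polynomial Filter Topology NumberField Module TensorProduct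

instance (p : Nat.Primes) : Fact (p : ℕ).Prime := ⟨p.2⟩

variable {L : Type} [Field L] [NumberField L] {r s e : ℕ}

/-- The class number of the field `K` is prime to its degree, and `-1` is a norm or no negative number is a
norm. -/
def Admissible (K : IntermediateField ℚ L) : Prop :=
  (classNumber K).Coprime (finrank ℚ K) ∧
    ((∃ x : K, Algebra.norm ℚ x = -1) ∨ ∀ x : K, 0 ≤ Algebra.norm ℚ x)

/-- All `k` in `ℤ^s` with `|k_j| ≤ B X ^ deg f_j`. -/
noncomputable def box (f : Fin s → ℤ[X]) (B X : ℕ) : Finset (Fin s → ℤ) :=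
  Fintype.piFinset fun j => Icc (-((B * X ^ (f j).natDegree : ℕ) : ℤ)) ((B * X ^ (f j).natDegree : ℕ) : ℤ)

/-- The point `(t, z)` with coordinates in the field `F` lies on
`V_k : N_{Kᵢ/ℚ}(zᵢ) = cᵢ ∏_{j ∈ A(φ(i))} (f_j(t) + k_j)`, all `f_j(t) + k_j ≠ 0`. The coordinates `zᵢ` form
an element of `F ⊗ Kᵢ`. -/
def OnV (K : Fin r → IntermediateField ℚ L) (f : Fin s → ℤ[X]) (A : Fin e → Finset (Fin s)) (φ : Fin r → Fin e)
    (c : Fin r → ℤ) (k : Fin s → ℤ) {F : Type} [Field F] [Algebra ℚ F] (t : F)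
    (z : (i : Fin r) → F ⊗[ℚ] (K i)) : Prop :=
  (∀ j, aeval t (f j) + (k j : F) ≠ 0) ∧
    ∀ i, Algebra.norm F (z i) = (c i : F) * ∏ j ∈ A (φ i), (aeval t (f j) + (k j : F))

/-- The coordinates of an element of `F ⊗ K`, with respect to an integral basis of `K`. -/
noncomputable def coord (K : IntermediateField ℚ L) {F : Type} [Field F] [Algebra ℚ F] (z : F ⊗[ℚ] K)
    (j : Free.ChooseBasisIndex ℤ (𝓞 K)) : F :=
  (Algebra.TensorProduct.basis F (integralBasis K)).repr z j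

/-- Given points at `T`: for all `p` in `T` the point `(t_p, z_p)` lies on `V_k`, its coordinates have
absolute value at most `p ^ N` and `|f_j(t_p) + k_j| ≥ p ^ (-N)` for all `j`. -/
def GivenAt (K : Fin r → IntermediateField ℚ L) (f : Fin s → ℤ[X]) (A : Fin e → Finset (Fin s)) (φ : Fin r → Fin e)
    (c : Fin r → ℤ) (T : Finset Nat.Primes) (N : ℕ) (k : Fin s → ℤ)
    (t : (p : Nat.Primes) → ℚ_[(p : ℕ)]) (z : (p : Nat.Primes) → (i : Fin r) → ℚ_[(p : ℕ)] ⊗[ℚ] (K i)) : Prop :=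
  ∀ p ∈ T, OnV K f A φ c k (t p) (z p) ∧ ‖t p‖ ≤ ((p : ℕ) : ℝ) ^ N ∧
    (∀ i j, ‖coord (K i) (z p i) j‖ ≤ ((p : ℕ) : ℝ) ^ N) ∧
    ∀ j, (((p : ℕ) : ℝ) ^ N)⁻¹ ≤ ‖aeval (t p) (f j) + (k j : ℚ_[(p : ℕ)])‖

/-- There is a rational point `(q, y)` of `V_k` such that the `f_j(q) + k_j` have the signs of the
`f_j(tr) + k_j`, `q` is within `p ^ (-N)` of `t_p` for all `p` in `T`, and the coordinates of `yᵢ` are within
`p ^ (-N)` of those of `z_{p,i}` for all `p` in `T` and all `i` for which `Kᵢ` is cyclic over `ℚ`. -/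
def Approximated (K : Fin r → IntermediateField ℚ L) (f : Fin s → ℤ[X]) (A : Fin e → Finset (Fin s))
    (φ : Fin r → Fin e) (c : Fin r → ℤ) (T : Finset Nat.Primes) (N : ℕ) (k : Fin s → ℤ)
    (t : (p : Nat.Primes) → ℚ_[(p : ℕ)]) (z : (p : Nat.Primes) → (i : Fin r) → ℚ_[(p : ℕ)] ⊗[ℚ] (K i))
    (tr : ℝ) : Prop :=
  ∃ (q : ℚ) (y : (i : Fin r) → ℚ ⊗[ℚ] (K i)), OnV K f A φ c k q y ∧
    (∀ j, 0 < (aeval (q : ℝ) (f j) + (k j : ℝ)) * (aeval tr (f j) + (k j : ℝ))) ∧
    ∀ p ∈ T, ‖(q : ℚ_[(p : ℕ)]) - t p‖ ≤ (((p : ℕ) : ℝ) ^ N)⁻¹ ∧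
      ∀ i, IsGalois ℚ (K i) → IsCyclic (K i ≃ₐ[ℚ] K i) → ∀ j,
        ‖((coord (K i) (y i) j : ℚ) : ℚ_[(p : ℕ)]) - coord (K i) (z p i) j‖ ≤ (((p : ℕ) : ℝ) ^ N)⁻¹

/-- Weak approximation of level `N` at the primes of `T`, with the signs at the real place, for all real
points `(tr, zr)` of `V_k`. -/
def WeakApproximation (K : Fin r → IntermediateField ℚ L) (f : Fin s → ℤ[X]) (A : Fin e → Finset (Fin s))
    (φ : Fin r → Fin e) (c : Fin r → ℤ) (T : Finset Nat.Primes) (N : ℕ) (k : Fin s → ℤ) : Prop :=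
  ∀ (t : (p : Nat.Primes) → ℚ_[(p : ℕ)]) (z : (p : Nat.Primes) → (i : Fin r) → ℚ_[(p : ℕ)] ⊗[ℚ] (K i))
    (tr : ℝ) (zr : (i : Fin r) → ℝ ⊗[ℚ] (K i)), GivenAt K f A φ c T N k t z → OnV K f A φ c k tr zr →
    Approximated K f A φ c T N k t z tr

lemma wa_of (K : Fin r → IntermediateField ℚ L) (hK : ∀ i, Admissible (K i)) (f : Fin s → ℤ[X])
    (A : Fin e → Finset (Fin s)) (φ : Fin r → Fin e) (c : Fin r → ℤ) (hc : ∀ i, c i ≠ 0) (T : Finset Nat.Primes)
    (N E : ℕ) (hE : E = (2 * (∑ j, (f j).natDegree) + 3) * (2 * N + 2 * ∑ i, finrank ℚ (K i)) + 3)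
    (k : Fin s → ℤ)
    (h : ∀ (t : (p : Nat.Primes) → ℚ_[(p : ℕ)]) (tr : ℝ), Pool.Agent.R479.NF.LcE K f A φ c T E k t →
      Pool.Agent.R479.NF.RcE K f A φ c k tr → (∀ j, Pool.Agent.Y714.RC.PP f k j tr ≠ 0) →
      Pool.Agent.R479.NF.GlE K f A φ c T E 0 0 k t tr) :
    WeakApproximation K f A φ c T N k := by
  intro t z tr zr hg1 hg2
  have hNE : N ≤ E := by
    rw [hE]
    nlinarith [Nat.zero_le (∑ i, finrank ℚ (K i)), Nat.zero_le (∑ j, (f j).natDegree)]
  have hone : ∀ p : Nat.Primes, (1 : ℝ) < ((p : ℕ) : ℝ) := fun p => by exact_mod_cast p.2.one_lt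
  have hG := h t tr (by
    intro p hp
    have h1p := hone p
    have h0p : (0 : ℝ) < ((p : ℕ) : ℝ) := by linarith
    obtain ⟨h1, h2, -, h4⟩ := hg1 p hp
    refine ⟨h2.trans (pow_le_pow_right₀ h1p.le hNE), fun j => ?_, fun i => ⟨z p i, h1.2 i⟩⟩
    exact (inv_anti₀ (by positivity) (pow_le_pow_right₀ h1p.le hNE)).trans (h4 j)) (by
    intro i
    rcases (hK i).2 with h4 | h4
    · exact Or.inl h4
    · right
      have h5 := Pool.Agent.R479.NF.real_nonneg h4 (zr i)
      rw [hg2.2 i] at h5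
      exact lt_of_le_of_ne h5 (mul_ne_zero (by exact_mod_cast hc i)
        (prod_ne_zero_iff.2 fun j _ => hg2.1 j)).symm) hg2.1
  obtain ⟨q, y, h1, -, h3, h4⟩ := Pool.Agent.R479.NF.sxE_of K f A φ c hc T N 0 0 E hE k t z tr (by
    intro p hp
    obtain ⟨h1, h2, h3, h4⟩ := hg1 p hp
    exact ⟨h2, h4, fun i => ⟨h1.2 i, fun j => h3 i j⟩⟩) 0 hG
  refine ⟨q, fun i => (1 : ℚ) ⊗ₜ[ℚ] y i, ⟨fun j h0 => ?_, fun i => ?_⟩, h1, fun p hp =>
    ⟨(h4 p hp).1, fun i hc1 hc2 j => ?_⟩⟩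
  · have h5 := h1 j
    have e : Pool.Agent.Y714.RC.PP f k j (q : ℝ) = ((aeval q (f j) + (k j : ℚ) : ℚ) : ℝ) := by
      unfold Pool.Agent.Y714.RC.PP
      have e2 : ((aeval q (f j) : ℚ) : ℝ) = aeval (q : ℝ) (f j) := by
        have := aeval_algebraMap_apply ℝ q (f j)
        simp only [eq_ratCast] at this
        exact this.symm
      push_cast
      rw [e2]
    rw [e, h0, Rat.cast_zero, zero_mul] at h5
    exact lt_irrefl _ h5
  · rw [Pool.Agent.R479.NF.norm_one_tmul_rat, h3 i]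
    rfl
  · have h5 := (h4 p hp).2 i hc1 hc2.exists_generator j
    have e : ((coord (K i) ((1 : ℚ) ⊗ₜ[ℚ] y i) j : ℚ) : ℚ_[(p : ℕ)]) =
        Pool.Agent.R479.NF.cd (p : ℕ) ((1 : ℚ_[(p : ℕ)]) ⊗ₜ[ℚ] (y i) : Pool.Agent.R479.NF.Ap (K i) (p : ℕ)) j := by
      unfold coord Pool.Agent.R479.NF.cd
      rw [Basis.equivFun_apply, Algebra.TensorProduct.basis_repr_tmul, Algebra.TensorProduct.basis_repr_tmul]
      simp
    rw [e]
    exact h5

/-- Let `F_y` be the compositum of the fields `Kᵢ` of the equations with the product number `y`, and let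
`G_y` be the compositum of the `Kᵢ` of the equations whose product is another one which has a factor in
common with the product number `y`. For all `y` the intersection of `F_y` and `G_y` is `ℚ`. -/
def LinearlyDisjoint (K : Fin r → IntermediateField ℚ L) (A : Fin e → Finset (Fin s)) (φ : Fin r → Fin e) : Prop :=
  ∀ y, (⨆ i : {i : Fin r // φ i = y}, K i) ⊓
    (⨆ i : {i : Fin r // φ i ≠ y ∧ ∃ j, j ∈ A (φ i) ∧ j ∈ A y}, K i) = ⊥

/-- The condition at infinity: for some rational `u ≠ 0` all the numbers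
`cᵢ ∏_{j ∈ A(φ(i))} (lead(f_j) u ^ deg f_j)` are norms of elements of the `Kᵢ`; or else the degrees of the
`Kᵢ` are coprime in pairs and prime to the degrees of the products `∏_{j ∈ A(φ(i))} f_j`. -/
def AtInfinity (K : Fin r → IntermediateField ℚ L) (f : Fin s → ℤ[X]) (A : Fin e → Finset (Fin s))
    (φ : Fin r → Fin e) (c : Fin r → ℤ) : Prop :=
  (∃ u : ℚ, u ≠ 0 ∧ ∀ i, ∃ x : K i, Algebra.norm ℚ x =
    (c i : ℚ) * (∏ j ∈ A (φ i), ((f j).leadingCoeff : ℚ)) * u ^ (∑ j ∈ A (φ i), (f j).natDegree)) ∨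
  ((∀ i i', i ≠ i' → (finrank ℚ (K i)).Coprime (finrank ℚ (K i'))) ∧
    ∀ i, (∑ j ∈ A (φ i), (f j).natDegree).Coprime (finrank ℚ (K i)))

lemma tendsto_of (f : Fin s → ℤ[X]) (B : ℕ) (hB : 1 ≤ B) (P : ℕ → (Fin s → ℤ) → Prop)
    [∀ X, DecidablePred (P X)]
    (hmain : ∀ ε : ℝ, 0 < ε → ∃ X0 : ℕ, ∀ X : ℕ, X0 ≤ X → ∃ Bad : Finset (Fin s → ℤ),
      (#Bad : ℝ) ≤ ε * ∏ j, (X : ℝ) ^ (f j).natDegree ∧
      ∀ k : Fin s → ℤ, (∀ j, |k j| ≤ ((B * X ^ (f j).natDegree : ℕ) : ℤ)) → k ∉ Bad → ¬ P X k) :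
    Tendsto (fun X : ℕ => (#{k ∈ box f B X | P X k} : ℝ) / #(box f B X)) atTop (𝓝 0) := by
  rw [Metric.tendsto_atTop]
  intro ε hε
  obtain ⟨X0, h⟩ := hmain (ε / 2) (by linarith)
  refine ⟨max X0 1, fun X hX => ?_⟩
  obtain ⟨Bad, hB1, hB2⟩ := h X ((le_max_left _ _).trans hX)
  have hX1 : 1 ≤ X := (le_max_right _ _).trans hX
  have hbox : (∏ j, (X : ℝ) ^ (f j).natDegree) ≤ #(box f B X) := Pool.Agent.R479.NF.box_card f B X hB
  have hPr : (0 : ℝ) < ∏ j, (X : ℝ) ^ (f j).natDegree := prod_pos fun j _ => by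
    have : (0 : ℝ) < X := by exact_mod_cast hX1
    positivity
  have hbox0 : (0 : ℝ) < #(box f B X) := lt_of_lt_of_le hPr hbox
  have hsub : {k ∈ box f B X | P X k} ⊆ Bad := by
    intro k hk
    rw [mem_filter] at hk
    obtain ⟨hk1, hk2⟩ := hk
    by_contra hkB
    refine hB2 k (fun j => ?_) hkB hk2
    unfold box at hk1
    rw [Fintype.mem_piFinset] at hk1
    exact abs_le.2 (mem_Icc.1 (hk1 j))
  have h2 : (#{k ∈ box f B X | P X k} : ℝ) ≤ #Bad := by
    exact_mod_cast card_le_card hsub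
  rw [dist_zero_right, Real.norm_of_nonneg (div_nonneg (Nat.cast_nonneg _) hbox0.le), div_lt_iff₀ hbox0]
  calc (#{k ∈ box f B X | P X k} : ℝ) ≤ ε / 2 * ∏ j, (X : ℝ) ^ (f j).natDegree := h2.trans hB1
    _ ≤ ε / 2 * #(box f B X) := mul_le_mul_of_nonneg_left hbox (by linarith)
    _ < ε * #(box f B X) := mul_lt_mul_of_pos_right (by linarith) hbox0

open Classical in
/-- Here `L` is the `m`-th cyclotomic field, and the `Kᵢ` are subfields of it which satisfy the condition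
at infinity. (1) 100% of the `V_k` have rational points: the proportion of the `k` in the boxes
`|k_j| ≤ B X ^ deg f_j` without this property tends to `0` for `X → ∞`. (2) For 100% of the `k`, in the same
sense, `V_k` satisfies weak approximation of level `N` at `T`, with the signs at the real place, for all real
points of `V_k`, where `T` is any finite set of primes. -/
theorem result (m : ℕ) [NeZero m] [IsCyclotomicExtension {m} ℚ L] (K : Fin r → IntermediateField ℚ L)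
    (hK : ∀ i, Admissible (K i)) (f : Fin s → ℤ[X]) (hf : ∀ j, 1 ≤ (f j).natDegree)
    (A : Fin e → Finset (Fin s)) (hA : ∀ y, (A y).Nonempty) (φ : Fin r → Fin e)
    (hLD : LinearlyDisjoint K A φ) (c : Fin r → ℤ) (hc : ∀ i, c i ≠ 0) (hinf : AtInfinity K f A φ c)
    (B : ℕ) (hB : 1 ≤ B) :
    Tendsto (fun X : ℕ =>
      (#{k ∈ box f B X | ¬ ∃ (t : ℚ) (z : (i : Fin r) → ℚ ⊗[ℚ] (K i)), OnV K f A φ c k t z} : ℝ) /
        #(box f B X)) atTop (𝓝 0) ∧
    ∀ (T : Finset Nat.Primes) (N : ℕ), Tendsto (fun X : ℕ =>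
      (#{k ∈ box f B X | ¬ WeakApproximation K f A φ c T N k} : ℝ) / #(box f B X)) atTop (𝓝 0) := by
  choose β hβ using hA
  obtain ⟨u, hu, hlead⟩ : ∃ u : ℚ, u ≠ 0 ∧ ∀ i, ∃ x : K i, Algebra.norm ℚ x =
      (c i : ℚ) * (∏ j ∈ A (φ i), ((f j).leadingCoeff : ℚ)) * u ^ (∑ j ∈ A (φ i), (f j).natDegree) := by
    rcases hinf with h | ⟨h1, h2⟩
    · exact h
    · refine Pool.Agent.R479.NF.exists_u K h1 (fun i => ∑ j ∈ A (φ i), (f j).natDegree) h2
        (fun i => (c i : ℚ) * ∏ j ∈ A (φ i), ((f j).leadingCoeff : ℚ)) (fun i => ?_)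
      apply mul_ne_zero (by exact_mod_cast hc i)
      refine prod_ne_zero_iff.2 fun j _ => ?_
      have h3 : (f j).leadingCoeff ≠ 0 := by
        rw [Ne, leadingCoeff_eq_zero]
        intro h
        have := hf j
        rw [h] at this
        simp at this
      exact_mod_cast h3
  constructor
  · apply tendsto_of f B hB (fun X k => ¬ ∃ (t : ℚ) (z : (i : Fin r) → ℚ ⊗[ℚ] (K i)), OnV K f A φ c k t z)
    intro ε hε
    obtain ⟨X0, h⟩ := Pool.Agent.R479.NF.ptU m K (fun i => (hK i).1) (fun i => (hK i).2) f hf A φ hLD β hβ c hc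
      u hu hlead B hB ε hε
    refine ⟨X0, fun X hX => ?_⟩
    obtain ⟨Bad, hB1, hB2⟩ := h X hX
    refine ⟨Bad, hB1, fun k hk hkB => not_not.2 ?_⟩
    obtain ⟨q, h1, h2⟩ := hB2 k hk hkB
    choose y hy using h2
    exact ⟨q, fun i => (1 : ℚ) ⊗ₜ[ℚ] y i, h1, fun i => by
      rw [Pool.Agent.R479.NF.norm_one_tmul_rat, hy i]
      rfl⟩
  · intro T N
    obtain ⟨E, hE⟩ : ∃ E, E = (2 * (∑ j, (f j).natDegree) + 3) * (2 * N + 2 * ∑ i, finrank ℚ (K i)) + 3 :=
      ⟨_, rfl⟩
    apply tendsto_of f B hB (fun X k => ¬ WeakApproximation K f A φ c T N k)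
    intro ε hε
    obtain ⟨X0, h⟩ := Pool.Agent.R479.NF.wxR m K (fun i => (hK i).1) (fun i => (hK i).2) f hf A φ hLD β hβ c hc
      u hu hlead T E B hB ε hε
    refine ⟨X0, fun X hX => ?_⟩
    obtain ⟨Bad, hB1, hB2⟩ := h X hX
    refine ⟨Bad, hB1, fun k hk hkB => not_not.2 (wa_of K hK f A φ c hc T N E hE k fun t tr h1 h2 h3 => ?_)⟩
    obtain ⟨q, h4, h5, h6⟩ := hB2 k hk hkB t tr h1 h2 h3
    exact ⟨q, h4, by simp, h5, h6⟩

end Pool.Agent.Results.MP_e426f4_ag.AllRealPoints
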