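import Pool.Agent.Results.MP_e426f4_ag.ProductsOfConics
import Pool.Agent.R482.ST.SlowC

/-!
# Weak approximation for all varieties `yᵢ² - aᵢ zᵢ² = bᵢ t (f(t) + k)` with `k` near the powers of almost every number

Let `v_n ≥ 1` be a sequence with a finite exponent of convergence (for instance `v_n = n` or `v_n = 3 ^ n`). For almost every
`α > 1`, for ALL `f`, `a`, `b`, all finite sets `T` of primes which contain the bad ones, all levels `N` and all `A`, for all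
large `n`: for ALL integers `k` with `||k| - α ^ (v_n)| ≤ v_n ^ A` the rational points of the variety
`W_k : yᵢ² - aᵢ zᵢ² = bᵢ t (f(t) + k) ≠ 0` approximate, to the level `N` at `T`, the points orthogonal to the algebras `(aᵢ, t)`.
The starting file `ProductsOfConics` says it for almost all integers `k`, for fixed `f`, `a`, `b`.
-/

set_option autoImplicit false

namespace Pool.Agent.Results.MP_e426f4_ag.NearPowers

open Finset Polynomial MeasureTheory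
open ProductsOfConics (WB)

/-- the finite set `T` contains the primes up to `2 deg f` and those dividing the leading coefficient of `f`, an `aᵢ` or a `bᵢ` -/
def Bad {r : ℕ} (f : ℤ[X]) (a b : Fin r → ℤ) (T : Finset Nat.Primes) : Prop :=
  ∀ p : Nat.Primes, ((p : ℕ) ≤ 2 * f.natDegree ∨ ((p : ℕ) : ℤ) ∣ f.leadingCoeff * ∏ i, (a i * b i)) → p ∈ T

/-- the data -/
abbrev I : Type := Σ r : ℕ, ℤ[X] × (Fin r → ℤ) × (Fin r → ℤ) × Finset Nat.Primes × ℕ

lemma countable_I : Countable I := by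
  have : Countable ℤ[X] := by
    rw [← Cardinal.mk_le_aleph0_iff]
    refine (Polynomial.cardinalMk_le_max).trans ?_
    simp
  infer_instance

/-- the exceptional integers -/
def P (p : I) (k : ℤ) : Prop :=
  (1 ≤ p.2.1.natDegree ∧ (∀ i, p.2.2.1 i ≠ 0) ∧ (∀ i, p.2.2.2.1 i ≠ 0) ∧ Bad p.2.1 p.2.2.1 p.2.2.2.1 p.2.2.2.2.1) ∧
    ¬ WB p.2.1 p.2.2.1 p.2.2.2.1 p.2.2.2.2.1 p.2.2.2.2.2 k

lemma count (p : I) (U : ℕ) : ∃ X₀ : ℕ, ∀ X : ℕ, X₀ ≤ X →
    ({d : ℤ | d.natAbs ≤ X ∧ P p d}.ncard : ℝ) ≤ X / Real.log X ^ U := by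
  classical
  obtain ⟨r, f, a, b, T, N⟩ := p
  by_cases h : 1 ≤ f.natDegree ∧ (∀ i, a i ≠ 0) ∧ (∀ i, b i ≠ 0) ∧ Bad f a b T
  · obtain ⟨X₀, hX⟩ := ProductsOfConics.result r f h.1 a b h.2.1 h.2.2.1 T h.2.2.2 N U
    refine ⟨X₀, fun X h1 => le_trans ?_ (hX X h1)⟩
    rw [← Set.ncard_coe_finset]
    have hsub : {d : ℤ | d.natAbs ≤ X ∧ P ⟨r, f, a, b, T, N⟩ d} ⊆
        (({k ∈ Icc (-(X : ℤ)) X | ¬ WB f a b T N k} : Finset ℤ) : Set ℤ) := by
      rintro d ⟨h2, h3⟩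
      rw [Finset.mem_coe, Finset.mem_filter, Finset.mem_Icc]
      refine ⟨by omega, h3.2⟩
    exact_mod_cast Set.ncard_le_ncard hsub (Finset.finite_toSet _)
  · refine ⟨0, fun X _ => ?_⟩
    have e : {d : ℤ | d.natAbs ≤ X ∧ P ⟨r, f, a, b, T, N⟩ d} = ∅ := by
      rw [Set.eq_empty_iff_forall_notMem]
      rintro d ⟨-, h3⟩
      exact h h3.1
    rw [e, Set.ncard_empty, Nat.cast_zero]
    exact div_nonneg (Nat.cast_nonneg _) (pow_nonneg (Real.log_natCast_nonneg _) _)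

/-- **Theorem.** (1) Let `v_n ≥ 1` be a sequence with a finite exponent of convergence. For almost every `α > 1`, for ALL `f` of
degree at least one, all nonzero `aᵢ`, `bᵢ`, all finite sets `T` of primes which contain the bad ones (`Bad`), all levels `N`
and all `A`, for all large `n`, the condition `WB` (approximation of level `N` at `T` of the points orthogonal to the algebras
`(aᵢ, t)`) holds for ALL integers `k` with `||k| - α ^ (v_n)| ≤ v_n ^ A`. (2) The same for the powers `α ^ n` and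
`||k| - α ^ n| ≤ n ^ A`. -/
theorem result :
    (∀ (v : ℕ → ℝ) (t : ℝ), (∀ n, 1 ≤ v n) → (Summable fun n => (v n) ^ (-t)) →
      ∃ E : Set ℝ, volume E = 0 ∧ ∀ α : ℝ, 1 < α → α ∉ E →
        ∀ (r : ℕ) (f : ℤ[X]) (a b : Fin r → ℤ) (T : Finset Nat.Primes), 1 ≤ f.natDegree → (∀ i, a i ≠ 0) → (∀ i, b i ≠ 0) →
          Bad f a b T → ∀ N A : ℕ, ∃ n₀ : ℕ, ∀ n : ℕ, n₀ ≤ n → ∀ k : ℤ, |(|k| : ℝ) - α ^ (v n)| ≤ (v n) ^ A →
            WB f a b T N k) ∧
    ∃ E : Set ℝ, volume E = 0 ∧ ∀ α : ℝ, 1 < α → α ∉ E →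
      ∀ (r : ℕ) (f : ℤ[X]) (a b : Fin r → ℤ) (T : Finset Nat.Primes), 1 ≤ f.natDegree → (∀ i, a i ≠ 0) → (∀ i, b i ≠ 0) →
        Bad f a b T → ∀ N A : ℕ, ∃ n₀ : ℕ, ∀ n : ℕ, n₀ ≤ n → ∀ k : ℤ, |(|k| : ℝ) - α ^ n| ≤ (n : ℝ) ^ A →
          WB f a b T N k := by
  have := countable_I
  refine ⟨fun v t hv ht => ?_, ?_⟩
  · obtain ⟨E, h1, h2⟩ := Pool.Agent.R482.ST.slow_family P count hv ht
    refine ⟨E, h1, fun α hα hαE r f a b T hf ha hb hT N A => ?_⟩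
    obtain ⟨n₀, hn⟩ := h2 α hα hαE ⟨r, f, a, b, T, N⟩ A
    refine ⟨n₀, fun n h3 k hk => ?_⟩
    by_contra hcon
    exact hn n h3 k hk ⟨⟨hf, ha, hb, hT⟩, hcon⟩
  · obtain ⟨E, h1, h2⟩ := Pool.Agent.R482.ST.slow_family_pow P count
    refine ⟨E, h1, fun α hα hαE r f a b T hf ha hb hT N A => ?_⟩
    obtain ⟨n₀, hn⟩ := h2 α hα hαE ⟨r, f, a, b, T, N⟩ A
    refine ⟨n₀, fun n h3 k hk => ?_⟩
    by_contra hcon
    exact hn n h3 k hk ⟨⟨hf, ha, hb, hT⟩, hcon⟩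

end Pool.Agent.Results.MP_e426f4_ag.NearPowers
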